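import Pool.Agent.Y624.SC.Stm

/-! Averaging over permutations (part S_AVG of project SC of helper624; proof by helper43). -/

set_option autoImplicit false

namespace Pool.Agent.Y43.SC

open Finset
open scoped RealInnerProductSpace

section

variable {V : Type} [NormedAddCommGroup V] [InnerProductSpace ℝ V] {d : ℕ}

/-- the average of the scalar products of the vectors at the places `a`, `b` -/
noncomputable def G (v : Fin (d + 1) → V) (a b : Fin (d + 1)) : ℝ :=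
  ∑ σ : Equiv.Perm (Fin (d + 1)), ⟪v (σ a), v (σ b)⟫

lemma G_perm (v : Fin (d + 1) → V) (t : Equiv.Perm (Fin (d + 1))) (a b : Fin (d + 1)) :
    G v (t a) (t b) = G v a b := by
  unfold G
  exact Equiv.sum_comp (Equiv.mulRight t)
    (fun σ : Equiv.Perm (Fin (d + 1)) => (⟪v (σ a), v (σ b)⟫ : ℝ))

lemma G_self (v : Fin (d + 1) → V) (a : Fin (d + 1)) : G v a a = G v 0 0 := by
  have := G_perm v (Equiv.swap 0 a) 0 0
  rwa [Equiv.swap_apply_left] at this

lemma G_ne (v : Fin (d + 1) → V) {a b c : Fin (d + 1)} (hb : b ≠ a) (hc : c ≠ a) :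
    G v a b = G v a c := by
  have := G_perm v (Equiv.swap c b) a c
  rwa [Equiv.swap_apply_left, Equiv.swap_apply_of_ne_of_ne hc.symm hb.symm] at this

lemma G_sum (v : Fin (d + 1) → V) (hv : ∑ i, v i = 0) (a : Fin (d + 1)) : ∑ b, G v a b = 0 := by
  unfold G
  rw [Finset.sum_comm]
  apply Finset.sum_eq_zero
  intro σ _
  rw [← inner_sum, Equiv.sum_comp σ v, hv, inner_zero_right]

lemma G_off (v : Fin (d + 1) → V) (hv : ∑ i, v i = 0) {a b : Fin (d + 1)} (hab : b ≠ a) :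
    G v 0 0 + d * G v a b = 0 := by
  have h1 := G_sum v hv a
  rw [← Finset.add_sum_erase Finset.univ _ (Finset.mem_univ a), G_self] at h1
  rw [Finset.sum_congr rfl (fun c hc => G_ne v (Finset.ne_of_mem_erase hc) hab),
    Finset.sum_const, Finset.card_erase_of_mem (Finset.mem_univ a), Finset.card_univ,
    Fintype.card_fin, nsmul_eq_mul, Nat.add_sub_cancel] at h1
  exact h1

lemma G_finsets (v : Fin (d + 1) → V) (I J : Finset (Fin (d + 1))) :
    ∑ σ : Equiv.Perm (Fin (d + 1)), (⟪∑ a ∈ I, v (σ a), ∑ b ∈ J, v (σ b)⟫ : ℝ) =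
      ∑ a ∈ I, ∑ b ∈ J, G v a b := by
  unfold G
  have h : ∀ σ : Equiv.Perm (Fin (d + 1)), (⟪∑ a ∈ I, v (σ a), ∑ b ∈ J, v (σ b)⟫ : ℝ) =
      ∑ a ∈ I, ∑ b ∈ J, ⟪v (σ a), v (σ b)⟫ := by
    intro σ
    rw [sum_inner]
    apply Finset.sum_congr rfl
    intro a _
    rw [inner_sum]
  rw [Finset.sum_congr rfl (fun σ _ => h σ), Finset.sum_comm]
  apply Finset.sum_congr rfl
  intro a _
  rw [Finset.sum_comm]

end

theorem done : Pool.Agent.Y624.SC.S_AVG := by
  intro d k hk hkd v hv hne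
  have hd0 : (0 : ℝ) < d := by
    have : 0 < d := by omega
    exact_mod_cast this
  obtain ⟨x, hx⟩ : ∃ x : ℝ, x = k := ⟨_, rfl⟩
  obtain ⟨m, hm⟩ : ∃ m : ℝ, m = (d : ℝ) - k := ⟨_, rfl⟩
  have hx0 : 0 < x := by
    rw [hx]
    exact_mod_cast hk
  have hm0 : 0 < m := by
    rw [hm]
    have : (k : ℝ) < d := by exact_mod_cast hkd
    linarith
  have hdm : (d : ℝ) = x + m := by rw [hx, hm]; ring
  have hm' : m = (d : ℝ) - x := by rw [hm, hx]
  -- the average square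
  set W : ℝ := G v 0 0 with hW
  have hW0 : 0 < W := by
    obtain ⟨i, hi⟩ := hne
    rw [hW]
    unfold G
    apply Finset.sum_pos' (fun σ _ => real_inner_self_nonneg)
    refine ⟨Equiv.swap 0 i, Finset.mem_univ _, ?_⟩
    rw [Equiv.swap_apply_left]
    exact real_inner_self_pos.2 hi
  have hoff : ∀ a b : Fin (d + 1), b ≠ a → G v a b = -(W / d) := by
    intro a b hab
    have := G_off v hv hab
    rw [← hW] at this
    field_simp
    linarith
  -- the places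
  let q : Fin (d + 1) := ⟨k, by omega⟩
  let A : Finset (Fin (d + 1)) := Finset.Iio q
  let B : Finset (Fin (d + 1)) := Finset.Ico q (Fin.last d)
  have hA : (A.card : ℝ) = x := by
    rw [hx, Fin.card_Iio]
  have hB : (B.card : ℝ) = m := by
    rw [hm, Fin.card_Ico]
    have : ((Fin.last d : Fin (d + 1)) : ℕ) - (q : ℕ) = d - k := rfl
    rw [this, Nat.cast_sub hkd.le]
  have hAB : Disjoint A B := by
    rw [Finset.disjoint_left]
    intro a ha hb
    have h1 := Finset.mem_Iio.1 ha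
    have h2 := (Finset.mem_Ico.1 hb).1
    exact absurd h1 (not_lt.2 h2)
  have hself : ∀ S : Finset (Fin (d + 1)), ∑ a ∈ S, ∑ b ∈ S, G v a b =
      (S.card : ℝ) * ((d : ℝ) - S.card + 1) * (W / d) := by
    intro S
    have h1 : ∀ a ∈ S, ∑ b ∈ S, G v a b = W + ((S.card : ℝ) - 1) * (-(W / d)) := by
      intro a ha
      rw [← Finset.add_sum_erase S _ ha, G_self, ← hW,
        Finset.sum_congr rfl (fun b hb => hoff a b (Finset.ne_of_mem_erase hb)), Finset.sum_const,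
        Finset.card_erase_of_mem ha, nsmul_eq_mul]
      have : 1 ≤ S.card := Finset.card_pos.2 ⟨a, ha⟩
      push_cast [Nat.cast_sub this]
      ring
    rw [Finset.sum_congr rfl h1, Finset.sum_const, nsmul_eq_mul]
    have hWd : W = d * (W / d) := by rw [mul_div_cancel₀ _ hd0.ne']
    linear_combination (S.card : ℝ) * hWd
  have hcross : ∑ a ∈ A, ∑ b ∈ B, G v a b = -(x * m * (W / d)) := by
    rw [Finset.sum_congr rfl (fun a ha => Finset.sum_congr rfl (fun b hb =>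
      hoff a b (fun h => (Finset.disjoint_left.1 hAB ha) (h ▸ hb))))]
    rw [Finset.sum_const, Finset.sum_const, nsmul_eq_mul, nsmul_eq_mul, hA, hB]
    ring
  let X : Equiv.Perm (Fin (d + 1)) → EuclideanSpace ℝ (Fin d) := fun σ => ∑ a ∈ A, v (σ a)
  let Y : Equiv.Perm (Fin (d + 1)) → EuclideanSpace ℝ (Fin d) := fun σ => ∑ a ∈ B, v (σ a)
  have sXX : ∑ σ, ‖X σ‖ ^ 2 = x * (m + 1) * (W / d) := by
    have h1 := G_finsets v A A
    rw [hself, hA] at h1
    rw [Finset.sum_congr rfl (fun σ _ => (real_inner_self_eq_norm_sq (X σ)).symm)]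
    rw [h1, hdm]
    ring
  have sYY : ∑ σ, ‖Y σ‖ ^ 2 = m * (x + 1) * (W / d) := by
    have h1 := G_finsets v B B
    rw [hself, hB] at h1
    rw [Finset.sum_congr rfl (fun σ _ => (real_inner_self_eq_norm_sq (Y σ)).symm)]
    rw [h1, hdm]
    ring
  have sXY : ∑ σ, (⟪X σ, Y σ⟫ : ℝ) = -(x * m * (W / d)) := by
    have h1 := G_finsets v A B
    rw [hcross] at h1
    exact h1
  -- the constants
  obtain ⟨c, hc⟩ : ∃ c : ℝ, c = √((k : ℝ) * (d - k) / (((k : ℝ) + 1) * (d - k + 1))) := ⟨_, rfl⟩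
  have hc2 : c ^ 2 = x * m / ((x + 1) * (m + 1)) := by
    rw [hc, ← hx, ← hm', Real.sq_sqrt (by positivity)]
  have hc0 : 0 < c := by
    rw [hc, ← hx, ← hm']
    exact Real.sqrt_pos.2 (by positivity)
  obtain ⟨t, ht⟩ : ∃ t : ℝ, t = x * m / (c * (x * (m + 1))) := ⟨_, rfl⟩
  have ht0 : 0 < t := by rw [ht]; positivity
  have e1 : c * t * (x * (m + 1)) = x * m := by
    rw [ht]
    field_simp
  have e2 : c * (m * (x + 1)) / t = x * m := by
    rw [ht]
    have h1 : c * (m * (x + 1)) / (x * m / (c * (x * (m + 1)))) =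
        c ^ 2 * ((m * (x + 1)) * (x * (m + 1))) / (x * m) := by
      field_simp
    rw [h1, hc2]
    field_simp
  have hsum : ∑ σ, ((⟪X σ, Y σ⟫ : ℝ) + c / 2 * (t * ‖X σ‖ ^ 2 + ‖Y σ‖ ^ 2 / t)) = 0 := by
    rw [Finset.sum_add_distrib, ← Finset.mul_sum, Finset.sum_add_distrib, ← Finset.mul_sum,
      ← Finset.sum_div, sXX, sYY, sXY]
    have h1 : c / 2 * (t * (x * (m + 1) * (W / d)) + m * (x + 1) * (W / d) / t) =
        (c * t * (x * (m + 1)) + c * (m * (x + 1)) / t) * (W / d) / 2 := by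
      field_simp
    rw [h1, e1, e2]
    ring
  obtain ⟨σ, hσX, hσh⟩ : ∃ σ, X σ ≠ 0 ∧
      (⟪X σ, Y σ⟫ : ℝ) + c / 2 * (t * ‖X σ‖ ^ 2 + ‖Y σ‖ ^ 2 / t) ≤ 0 := by
    by_contra hcon
    push Not at hcon
    have hnn : ∀ σ ∈ (Finset.univ : Finset (Equiv.Perm (Fin (d + 1)))),
        0 ≤ (⟪X σ, Y σ⟫ : ℝ) + c / 2 * (t * ‖X σ‖ ^ 2 + ‖Y σ‖ ^ 2 / t) := by
      intro σ _
      by_cases h : X σ = 0
      · rw [h, inner_zero_left]
        positivity
      · exact (hcon σ h).le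
    obtain ⟨σ, hσ⟩ : ∃ σ, X σ ≠ 0 := by
      by_contra hall
      push Not at hall
      have h0 : ∑ σ, ‖X σ‖ ^ 2 = 0 := by
        apply Finset.sum_eq_zero
        intro σ _
        rw [hall σ]
        simp
      rw [sXX] at h0
      have : 0 < x * (m + 1) * (W / d) := by positivity
      linarith
    have h1 := Finset.sum_pos' hnn ⟨σ, Finset.mem_univ σ, hcon σ hσ⟩
    rw [hsum] at h1
    exact lt_irrefl _ h1
  have hσY : Y σ ≠ 0 := by
    intro h
    rw [h, inner_zero_right] at hσh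
    have h2 : 0 < ‖X σ‖ := norm_pos_iff.2 hσX
    have h3 : 0 < 0 + c / 2 * (t * ‖X σ‖ ^ 2 + ‖(0 : EuclideanSpace ℝ (Fin d))‖ ^ 2 / t) := by
      positivity
    linarith
  have hamgm : 2 * (‖X σ‖ * ‖Y σ‖) ≤ t * ‖X σ‖ ^ 2 + ‖Y σ‖ ^ 2 / t := by
    have h1 : t * ‖X σ‖ ^ 2 + ‖Y σ‖ ^ 2 / t - 2 * (‖X σ‖ * ‖Y σ‖) =
        (t * ‖X σ‖ - ‖Y σ‖) ^ 2 / t := by
      field_simp
      ring
    have h2 : 0 ≤ (t * ‖X σ‖ - ‖Y σ‖) ^ 2 / t := by positivity
    linarith
  have hIv : ∑ a ∈ A.map σ.toEmbedding, v a = X σ := by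
    rw [Finset.sum_map]
    rfl
  have hJv : ∑ a ∈ B.map σ.toEmbedding, v a = Y σ := by
    rw [Finset.sum_map]
    rfl
  refine ⟨A.map σ.toEmbedding, B.map σ.toEmbedding, σ (Fin.last d),
    (Finset.disjoint_map σ.toEmbedding).2 hAB, ?_, ?_, ?_, ?_, ?_⟩
  · intro h
    rw [Finset.mem_map] at h
    obtain ⟨a, ha, ha2⟩ := h
    have h1 : a = Fin.last d := σ.injective ha2
    rw [h1] at ha
    have h2 := Finset.mem_Iio.1 ha
    exact absurd h2 (not_lt.2 (Fin.le_last q))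
  · intro h
    rw [Finset.mem_map] at h
    obtain ⟨a, ha, ha2⟩ := h
    have h1 : a = Fin.last d := σ.injective ha2
    rw [h1] at ha
    exact lt_irrefl _ (Finset.mem_Ico.1 ha).2
  · rw [hIv]
    exact hσX
  · rw [hJv]
    exact hσY
  · rw [hIv, hJv, ← hc]
    have h5 : c / 2 * (2 * (‖X σ‖ * ‖Y σ‖)) ≤ c / 2 * (t * ‖X σ‖ ^ 2 + ‖Y σ‖ ^ 2 / t) :=
      mul_le_mul_of_nonneg_left hamgm (by positivity)
    linarith

end Pool.Agent.Y43.SC
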